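import Pool.Agent.X22.ND5
import Pool.Agent.X22.NF

/-!
# Elliptic curves over `ℚ` from arbitrarily thin families over all number fields of bounded degree: bounds of GRH strength for
the L-functions of all base changes, twisted by all characters and at all heights

Nothing is used besides Mathlib in the statement.
-/

set_option autoImplicit false

namespace Pool.Agent.Results.MP_fb225e_nt.FewDigitCurvesAllFields

open Finset NumberField IsDedekindDomain Module

/-- The coefficient `a_v` of the L-function over the number field `F` of the elliptic curve `Y ^ 2 = X ^ 3 + m 0 X + m 1` over `ℚ` at a finite place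
`v` of good reduction not above `2`: the number `N v` of the elements of the residue field minus the number of the affine points (there is one
point at infinity). -/
noncomputable def trace {F : Type} [Field F] [NumberField F] (m : Fin 2 → ℕ) (v : HeightOneSpectrum (𝓞 F)) : ℤ :=
  (Ideal.absNorm v.asIdeal : ℤ) - Nat.card {P : (𝓞 F ⧸ v.asIdeal) × (𝓞 F ⧸ v.asIdeal) //
    P.2 ^ 2 = P.1 ^ 3 + (m 0 : 𝓞 F ⧸ v.asIdeal) * P.1 + (m 1 : 𝓞 F ⧸ v.asIdeal)}

/-- The partial sum `∑ w (v) a_v (log N v) (N v) ^ (- i τ)` over the places `v` of `F` not above `2` with `N v ≤ x`. -/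
noncomputable def partialSum {F : Type} [Field F] [NumberField F] (m : Fin 2 → ℕ) (w : HeightOneSpectrum (𝓞 F) → ℂ) (τ : ℝ) (x : ℕ) : ℂ :=
  ∑ᶠ v ∈ {v : HeightOneSpectrum (𝓞 F) | Ideal.absNorm v.asIdeal ≤ x ∧ (2 : 𝓞 F) ∉ v.asIdeal},
    w v * ((trace m v * Real.log (Ideal.absNorm v.asIdeal) : ℝ) : ℂ) *
      Complex.exp (((-(τ * Real.log (Ideal.absNorm v.asIdeal)) : ℝ) : ℂ) * Complex.I)

/-- The digit number `i` (counted from the right, beginning with `0`) of `n` in base `b`. -/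
def digit (b i n : ℕ) : ℕ := n / b ^ i % b

/-- The number which arises from the number `N` with at most `K` digits in base `b`, if for every `i ∈ S`
the digit number `i` is replaced by `f i`. -/
def change (b K N : ℕ) (f : ℕ → ℕ) (S : Finset ℕ) : ℕ :=
  ∑ i ∈ range K, (if i ∈ S then f i else digit b i N) * b ^ i

open Classical in
/-- The number of the choices of `r l` of `K l` positions for `l = 0, 1` for which the pair of the numbers obtained by
changing the digits of the `N l` at the chosen positions (according to `f l`) does not have the property `E`. -/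
noncomputable def exceptions (b : ℕ) (K r N : Fin 2 → ℕ) (f : Fin 2 → ℕ → ℕ) (E : (Fin 2 → ℕ) → Prop) : ℕ :=
  ((Fintype.piFinset (fun l => powersetCard (r l) (range (K l)))).filter
    (fun S => ¬ E (fun l => change b (K l) (N l) (f l) (S l)))).card

open Pool.Agent.X22.ND (op mem_op mzc_law absorb hp norm_hp mean_wt mean_wt_sq trace_mod mean_mono)
open Pool.Agent.X22.NF (pr mem_pr splitC resEquiv card_fiber_le card_above exists_char two_notMem)
open Pool.Agent.TH894.NE (mean mean_mul)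

/-- the monomials -/
def mon : Fin 2 → ℕ × (Fin 0 → ℕ) := ![(1, 0), (0, 0)]

/-- the trace over `𝔽_p` -/
noncomputable def tp (p : ℕ) (m : Fin 2 → ℕ) : ℤ := Pool.Agent.X22.ND.trace p 3 mon m (0 : Fin 0 → ZMod p)

lemma tp_eq (p : ℕ) (m : Fin 2 → ℕ) : tp p m = p - Nat.card {P : ZMod p × ZMod p // P.2 ^ 2 = P.1 ^ 3 + (m 0 : ZMod p) * P.1 + (m 1 : ZMod p)} := by
  unfold tp Pool.Agent.X22.ND.trace
  have e : ∀ x : ZMod p, Pool.Agent.X22.ND.fiber p 3 mon m x (0 : Fin 0 → ZMod p) = x ^ 3 + (m 0 : ZMod p) * x + (m 1 : ZMod p) := by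
    intro x
    unfold Pool.Agent.X22.ND.fiber mon
    rw [Fin.sum_univ_two]
    simp
    ring
  simp only [e]

section
variable {F : Type} [Field F] [NumberField F]

lemma trace_deg_one (m : Fin 2 → ℕ) (v : HeightOneSpectrum (𝓞 F)) (p : ℕ) (hp' : p.Prime) (h : Ideal.absNorm v.asIdeal = p) :
    trace m v = tp p m := by
  rw [tp_eq]
  unfold trace
  rw [h]
  congr 2
  obtain ⟨e⟩ : Nonempty (ZMod p ≃+* (𝓞 F ⧸ v.asIdeal)) := ⟨resEquiv v p hp' h⟩
  refine (Nat.card_congr ((e.toEquiv.prodCongr e.toEquiv).subtypeEquiv ?_)).symm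
  rintro ⟨X, Y⟩
  show Y ^ 2 = X ^ 3 + (m 0 : ZMod p) * X + (m 1 : ZMod p) ↔ (e Y) ^ 2 = (e X) ^ 3 + (m 0 : 𝓞 F ⧸ v.asIdeal) * e X + (m 1 : 𝓞 F ⧸ v.asIdeal)
  rw [← map_natCast e (m 0), ← map_natCast e (m 1), ← map_pow, ← map_pow, ← map_mul, ← map_add, ← map_add]
  exact e.injective.eq_iff.symm

lemma trace_bound (m : Fin 2 → ℕ) (v : HeightOneSpectrum (𝓞 F)) (h2 : (2 : 𝓞 F) ∉ v.asIdeal) :
    |(trace m v : ℝ)| ≤ 2 * Real.sqrt (Ideal.absNorm v.asIdeal) := by
  classical
  have hmax : v.asIdeal.IsMaximal := v.isMaximal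
  obtain ⟨k, hk, hkc, hcard, hres⟩ : ∃ (k : Type) (_ : Field k) (_ : Fintype k), Nat.card k = Ideal.absNorm v.asIdeal ∧
      Nonempty (k ≃+* (𝓞 F ⧸ v.asIdeal)) := by
    let i1 : Field (𝓞 F ⧸ v.asIdeal) := Ideal.Quotient.field v.asIdeal
    have hfin : Finite (𝓞 F ⧸ v.asIdeal) := Ideal.finiteQuotientOfFreeOfNeBot v.asIdeal v.ne_bot
    exact ⟨𝓞 F ⧸ v.asIdeal, i1, Fintype.ofFinite _, rfl, ⟨RingEquiv.refl _⟩⟩
  obtain ⟨e⟩ := hres
  have hchar : ringChar k ≠ 2 := by
    intro hc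
    have h3 : (2 : k) = 0 := by
      have := ringChar.Nat.cast_ringChar (R := k)
      rw [hc] at this
      exact_mod_cast this
    apply h2
    rw [← Ideal.Quotient.eq_zero_iff_mem]
    have h4 : e 2 = 0 := by rw [h3, map_zero]
    have h5 : e 2 = (2 : 𝓞 F ⧸ v.asIdeal) := by
      have := map_natCast e 2
      exact_mod_cast this
    rw [h5] at h4
    have h6 : (Ideal.Quotient.mk v.asIdeal) (2 : 𝓞 F) = (2 : 𝓞 F ⧸ v.asIdeal) := map_ofNat _ 2
    rw [h6, h4]
  obtain ⟨g, hg⟩ : ∃ g : Polynomial k, g = Polynomial.X ^ 3 + Polynomial.C (m 0 : k) * Polynomial.X + Polynomial.C (m 1 : k) := ⟨_, rfl⟩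
  have hgd : g.natDegree = 3 := by
    rw [hg]
    compute_degree!
  have hev : ∀ x : k, g.eval x = x ^ 3 + (m 0 : k) * x + (m 1 : k) := by
    intro x
    rw [hg]
    simp
  have h4 := Pool.Agent.H126T.card_aff hchar g (1 : k) one_ne_zero
  have h5 := Pool.Agent.H341R2.Sharp.weil_sharp hchar g (by rw [hgd]; norm_num) (by
    intro c h' hgh
    by_cases hc : c = 0
    · rw [hc] at hgh
      simp at hgh
      rw [hgh, Polynomial.natDegree_zero] at hgd
      omega
    · have h6 : g.natDegree = 2 * h'.natDegree := by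
        rw [hgh, Polynomial.natDegree_C_mul hc, Polynomial.natDegree_pow]
      omega)
  have h7 : (trace m v : ℝ) = -((∑ x : k, quadraticChar k (g.eval x) : ℤ) : ℝ) := by
    have h8 : Nat.card {P : (𝓞 F ⧸ v.asIdeal) × (𝓞 F ⧸ v.asIdeal) //
        P.2 ^ 2 = P.1 ^ 3 + (m 0 : 𝓞 F ⧸ v.asIdeal) * P.1 + (m 1 : 𝓞 F ⧸ v.asIdeal)} = Nat.card {P : k × k // 1 * P.2 ^ 2 = g.eval P.1} := by
      symm
      refine Nat.card_congr ((e.toEquiv.prodCongr e.toEquiv).subtypeEquiv ?_)
      rintro ⟨X, Y⟩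
      show 1 * Y ^ 2 = g.eval X ↔ (e Y) ^ 2 = (e X) ^ 3 + (m 0 : 𝓞 F ⧸ v.asIdeal) * e X + (m 1 : 𝓞 F ⧸ v.asIdeal)
      rw [hev, one_mul, ← map_natCast e (m 0), ← map_natCast e (m 1), ← map_pow, ← map_pow, ← map_mul, ← map_add, ← map_add]
      exact e.injective.eq_iff.symm
    unfold trace
    rw [h8, Int.cast_sub, Int.cast_natCast, Int.cast_natCast, ← hcard]
    rw [map_one, one_mul] at h4
    rw [← Nat.card_eq_fintype_card] at h4
    have h9 : ((Nat.card {P : k × k // 1 * P.2 ^ 2 = g.eval P.1} : ℤ) : ℝ) = ((Nat.card k : ℤ) : ℝ) + ((∑ x : k, quadraticChar k (g.eval x) : ℤ) : ℝ) := by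
      rw [← Int.cast_add]
      congr 1
    push_cast at h9 ⊢
    rw [h9]
    ring
  rw [h7, abs_neg]
  rw [hgd] at h5
  rw [← hcard, Nat.card_eq_fintype_card]
  push_cast
  refine le_trans (le_of_eq ?_) (h5.trans (le_of_eq ?_))
  · rfl
  · norm_num

end

lemma sum_unique_tp (p : ℕ) (hp' : p.Prime) (m : Fin 2 → ℕ) : haveI : Fact p.Prime := ⟨hp'⟩
    ∑ t : Fin 0 → ZMod p, (1 : ℝ) * (Pool.Agent.X22.ND.trace p 3 mon m t : ℝ) = tp p m := by
  have : Fact p.Prime := ⟨hp'⟩
  rw [Fintype.sum_unique, one_mul]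
  unfold tp
  congr 2
  exact Subsingleton.elim _ _

lemma mean_tp (p : ℕ) (hp' : p.Prime) (h2 : p ≠ 2) (c : ℝ) : mean 2 p (fun m => c * (tp p m : ℝ)) = 0 := by
  have : Fact p.Prime := ⟨hp'⟩
  have h := mean_wt p 3 hp' h2 mon ⟨1, rfl⟩ (fun _ => 1) c
  rw [← h]
  congr 1
  funext m
  rw [sum_unique_tp p hp' m]

lemma mean_tp_sq (p : ℕ) (hp' : p.Prime) (h2 : p ≠ 2) (c : ℝ) : mean 2 p (fun m => (c * (tp p m : ℝ)) ^ 2) ≤ c ^ 2 * p := by
  have : Fact p.Prime := ⟨hp'⟩
  have h := mean_wt_sq p 3 hp' h2 mon ⟨1, rfl⟩ ⟨0, rfl⟩ (fun j => j.elim0) (fun _ => 1) c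
  rw [Fintype.sum_unique] at h
  have e : (fun m : Fin 2 → ℕ => (c * ∑ t : Fin 0 → ZMod p, (1 : ℝ) * (Pool.Agent.X22.ND.trace p 3 mon m t : ℝ)) ^ 2) =
      fun m => (c * (tp p m : ℝ)) ^ 2 := by
    funext m
    rw [sum_unique_tp p hp' m]
  rw [e] at h
  simpa using h

lemma tp_bound (p : ℕ) (hp' : p.Prime) (h2 : p ≠ 2) (m : Fin 2 → ℕ) : |(tp p m : ℝ)| ≤ 3 * Real.sqrt p := by
  have h := Pool.Agent.X22.ND.trace_bound p 3 hp' h2 (by decide) mon (by intro l; fin_cases l <;> decide) m (0 : Fin 0 → ZMod p)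
  exact_mod_cast h

lemma tp_mod (p : ℕ) (m : Fin 2 → ℕ) : tp p m = tp p (fun i => m i % p) := trace_mod p 3 mon m 0

/-- **All base changes of almost all curves in thin families.** Let a base `b ≥ 2`, integers `n ≥ 1`, `A ≥ 0` and `δ > 0` be given. There are
`c > 0` and `y₀` such that for all integers `r l`, `K l` (`l = 0, 1`), `y` with `2 r l ≤ K l` and `y ≥ y₀` the following holds.

Let `0 ≤ N l < b ^ K l` be arbitrary integers, prescribe for every position `j` a digit `g l j` different from the digit of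
`N l` in base `b`, and let `Λ x` be for every `x` any set of at most `x ^ A` pairs `(F i, w i)` of a number field of degree at most `n` and a
function `w i` with `|w i (v)| ≤ 1` on its finite places, for instance a character of finite order of the ideles of `F i` (or the character of an
Artin representation of `F i` divided by its degree).
If one chooses `r l` of the `K l` positions and replaces the digits of `N l` at these positions, then for all but at most a proportion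
`1 / y ^ A` of the choices the elliptic curve `Y ^ 2 = X ^ 3 + m 0 X + m 1` obtained has the following property: for all integers `x` with
`y ≤ x ≤ exp (c r l)` for `l = 0, 1`, all `i ∈ Λ x` and all real `τ` with `|τ| ≤ x ^ A`,
`|∑ w i (v) a_v (log N v) (N v) ^ (-i τ)| ≤ x ^ (1 + δ)`, the sum running over the places `v` of `F i` with `N v ≤ x` not above `2`. -/
theorem result (b n : ℕ) (hb : 2 ≤ b) (δ : ℝ) (hδ : 0 < δ) (A : ℕ) :
    ∃ c : ℝ, 0 < c ∧ ∃ y₀ : ℕ,
    ∀ (K r : Fin 2 → ℕ) (y : ℕ), (∀ l, 2 * r l ≤ K l) → y₀ ≤ y →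
    ∀ N : Fin 2 → ℕ, (∀ l, N l < b ^ K l) → ∀ g : Fin 2 → ℕ → ℕ, (∀ l j, g l j < b ∧ g l j ≠ digit b j (N l)) →
    ∀ (κ : Type) (F : κ → Type) [∀ i, Field (F i)] [∀ i, NumberField (F i)] (w : ∀ i, HeightOneSpectrum (𝓞 (F i)) → ℂ)
      (Λ : ℕ → Finset κ), (∀ i v, ‖w i v‖ ≤ 1) → (∀ x, (Λ x).card ≤ x ^ A) → (∀ x, ∀ i ∈ Λ x, finrank ℚ (F i) ≤ n) →
      (exceptions b K r N g (fun m => ∀ x : ℕ, y ≤ x → (∀ l, (x : ℝ) ≤ Real.exp (c * r l)) → ∀ i ∈ Λ x,
        ∀ τ : ℝ, |τ| ≤ (x : ℝ) ^ A → ‖partialSum m (w i) τ x‖ ≤ (x : ℝ) ^ (1 + δ)) : ℝ) ≤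
        1 / (y : ℝ) ^ A * ∏ l, ((K l).choose (r l) : ℝ) := by
  classical
  obtain ⟨c, hc, y₀, h⟩ := mzc_law b 2 hb (by norm_num) (δ / 2) (by positivity) A A A
  obtain ⟨x₁, hx₁⟩ := absorb (3 * n + 4 * n) (δ / 2) (by positivity) (by positivity)
  refine ⟨c, hc, y₀ + x₁ + 2, fun K r y hrK hy N hN g hg κ F iF iN w Λ hw hΛ hn => ?_⟩
  obtain ⟨W, hW⟩ : ∃ W : ℕ → κ → ℕ → ℂ, W = fun x i p => ∑ v ∈ (pr (F i) x).filter (fun v => Ideal.absNorm v.asIdeal = p), w i v := ⟨_, rfl⟩
  have hW1 : ∀ x, ∀ i ∈ Λ x, ∀ p, p.Prime → ‖W x i p‖ ≤ n := by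
    intro x i hi p hp'
    rw [hW]
    refine (norm_sum_le _ _).trans ?_
    refine (sum_le_sum (fun v _ => hw i v)).trans ?_
    rw [sum_const, nsmul_eq_mul, mul_one]
    exact_mod_cast (card_fiber_le (F := F i) x p hp').trans (hn x i hi)
  have h2 := h K r y hrK (by omega) N hN g hg κ Λ (fun x _ => hΛ x)
    (fun x i p m => W x i p * (((Real.log p) * (tp p m : ℝ) : ℝ) : ℂ)) (by
      intro x i p m _
      show W x i p * (((Real.log p) * (tp p m : ℝ) : ℝ) : ℂ) = W x i p * (((Real.log p) * (tp p (fun i => m i % p) : ℝ) : ℝ) : ℂ)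
      rw [← tp_mod]) (fun x _ => 3 * n * x * (Real.log x + 1)) (by
      intro x hx i _
      have : 0 ≤ Real.log x := Real.log_natCast_nonneg x
      positivity) ?_ ?_ ?_ ?_
    (fun m => ∀ x : ℕ, y ≤ x → (∀ l, (x : ℝ) ≤ Real.exp (c * r l)) → ∀ i ∈ Λ x,
        ∀ τ : ℝ, |τ| ≤ (x : ℝ) ^ A → ‖partialSum m (w i) τ x‖ ≤ (x : ℝ) ^ (1 + δ)) ?_
  · unfold exceptions
    exact h2
  · -- the bound
    intro x hx i hi p hp' m
    rw [mem_op] at hp'
    have hx1 : (1 : ℝ) ≤ x := by exact_mod_cast (by omega : 1 ≤ x)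
    have hp1 : (1 : ℝ) ≤ p := by exact_mod_cast hp'.2.1.one_lt.le
    have hpx : (p : ℝ) ≤ x := by exact_mod_cast hp'.1
    have hlp : 0 ≤ Real.log p := Real.log_nonneg hp1
    have hlx : Real.log p ≤ Real.log x := Real.log_le_log (by linarith) hpx
    have hs : Real.sqrt p ≤ x := (Real.sqrt_le_sqrt hpx).trans (Real.sqrt_le_iff.2 ⟨by linarith, by nlinarith⟩)
    rw [norm_mul, Complex.norm_real, Real.norm_eq_abs, abs_mul, abs_of_nonneg hlp]
    calc ‖W x i p‖ * (Real.log p * |(tp p m : ℝ)|) ≤ n * ((Real.log x + 1) * (3 * x)) := by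
          have h3 := tp_bound p hp'.2.1 hp'.2.2 m
          gcongr
          · exact hW1 x i hi p hp'.2.1
          · linarith
          · exact h3.trans (by linarith)
      _ = 3 * n * x * (Real.log x + 1) := by ring
  · intro x hx i hi p hp'
    rw [mem_op] at hp'
    have e : (fun m : Fin 2 → ℕ => (W x i p * (((Real.log p) * (tp p m : ℝ) : ℝ) : ℂ)).re) = fun m => ((W x i p).re * Real.log p) * (tp p m : ℝ) := by
      funext m
      rw [Complex.re_mul_ofReal]
      ring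
    rw [e]
    exact mean_tp p hp'.2.1 hp'.2.2 _
  · intro x hx i hi p hp'
    rw [mem_op] at hp'
    have e : (fun m : Fin 2 → ℕ => (W x i p * (((Real.log p) * (tp p m : ℝ) : ℝ) : ℂ)).im) = fun m => ((W x i p).im * Real.log p) * (tp p m : ℝ) := by
      funext m
      rw [Complex.im_mul_ofReal]
      ring
    rw [e]
    exact mean_tp p hp'.2.1 hp'.2.2 _
  · -- the variance
    intro x hx i hi
    have hx0 : (0 : ℝ) ≤ x := Nat.cast_nonneg x
    have hlx0 : 0 ≤ Real.log x := Real.log_natCast_nonneg x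
    have hone : ∀ p ∈ op x, mean 2 p (fun m => ‖W x i p * (((Real.log p) * (tp p m : ℝ) : ℝ) : ℂ)‖ ^ 2) ≤ (n * (Real.log x + 1)) ^ 2 * x := by
      intro p hp'
      rw [mem_op] at hp'
      have hp1 : (1 : ℝ) ≤ p := by exact_mod_cast hp'.2.1.one_lt.le
      have hpx : (p : ℝ) ≤ x := by exact_mod_cast hp'.1
      have hlp : 0 ≤ Real.log p := Real.log_nonneg hp1
      have hlx : Real.log p ≤ Real.log x := Real.log_le_log (by linarith) hpx
      have e : (fun m : Fin 2 → ℕ => ‖W x i p * (((Real.log p) * (tp p m : ℝ) : ℝ) : ℂ)‖ ^ 2) = fun m => ((‖W x i p‖ * Real.log p) * (tp p m : ℝ)) ^ 2 := by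
        funext m
        rw [norm_mul, Complex.norm_real, Real.norm_eq_abs, mul_pow, sq_abs]
        ring
      rw [e]
      refine (mean_tp_sq p hp'.2.1 hp'.2.2 _).trans ?_
      have h3 := hW1 x i hi p hp'.2.1
      gcongr
      linarith
    refine (sum_le_sum hone).trans ?_
    rw [sum_const, nsmul_eq_mul]
    calc ((op x).card : ℝ) * ((n * (Real.log x + 1)) ^ 2 * x) ≤ x * ((n * (Real.log x + 1)) ^ 2 * x) :=
          mul_le_mul_of_nonneg_right (Pool.Agent.X22.ND.cardop_le x) (by positivity)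
      _ ≤ (3 * n * x * (Real.log x + 1)) ^ 2 := by
          have : 0 ≤ ((n : ℝ) * x * (Real.log x + 1)) ^ 2 := sq_nonneg _
          nlinarith
  · -- the conclusion
    intro m hm x hyx hxr i hi τ hτ
    have hx2 : 2 ≤ x := by omega
    have hx0 : (0 : ℝ) < x := by exact_mod_cast (by omega : 0 < x)
    have hx1 : (1 : ℝ) ≤ x := by exact_mod_cast (by omega : 1 ≤ x)
    have hlx0 : 0 ≤ Real.log x := Real.log_natCast_nonneg x
    have hni : (finrank ℚ (F i) : ℝ) ≤ n := by exact_mod_cast hn x i hi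
    obtain ⟨T, hT⟩ : ∃ T : HeightOneSpectrum (𝓞 (F i)) → ℂ, T = fun v => w i v * ((trace m v * Real.log (Ideal.absNorm v.asIdeal) : ℝ) : ℂ) *
      Complex.exp (((-(τ * Real.log (Ideal.absNorm v.asIdeal)) : ℝ) : ℂ) * Complex.I) := ⟨_, rfl⟩
    have e1 : partialSum m (w i) τ x = ∑ v ∈ pr (F i) x, T v := by
      unfold partialSum
      rw [hT]
      exact finsum_mem_eq_finite_toFinset_sum _ (Pool.Agent.X22.NF.finite_pr (F i) x)
    have e2 : ∀ p ∈ op x, ∑ v ∈ (pr (F i) x).filter (fun v => Ideal.absNorm v.asIdeal = p), T v =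
        W x i p * (((Real.log p) * (tp p m : ℝ) : ℝ) : ℂ) * hp τ p := by
      intro p hp'
      rw [mem_op] at hp'
      rw [hW, sum_mul, sum_mul]
      apply sum_congr rfl
      intro v hv
      rw [mem_filter] at hv
      rw [hT]
      simp only
      rw [trace_deg_one m v p hp'.2.1 hv.2, hv.2]
      unfold Pool.Agent.X22.ND.hp
      push_cast
      ring
    have h3 := splitC (F := F i) x T (2 * Real.sqrt x * Real.log x) (by
      intro v hv
      rw [mem_pr] at hv
      rw [hT]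
      simp only
      rw [norm_mul, norm_mul, Complex.norm_exp_ofReal_mul_I, mul_one, Complex.norm_real, Real.norm_eq_abs, abs_mul]
      have hN1 : (1 : ℝ) ≤ (Ideal.absNorm v.asIdeal : ℝ) := by
        have : Ideal.absNorm v.asIdeal ≠ 0 := by
          rw [Ne, Ideal.absNorm_eq_zero_iff]
          exact v.ne_bot
        exact_mod_cast Nat.one_le_iff_ne_zero.2 this
      have hNx : (Ideal.absNorm v.asIdeal : ℝ) ≤ x := by exact_mod_cast hv.1
      have hl0 : 0 ≤ Real.log (Ideal.absNorm v.asIdeal) := Real.log_nonneg hN1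
      have hl : Real.log (Ideal.absNorm v.asIdeal) ≤ Real.log x := Real.log_le_log (by linarith) hNx
      rw [abs_of_nonneg hl0]
      calc ‖w i v‖ * (|(trace m v : ℝ)| * Real.log (Ideal.absNorm v.asIdeal)) ≤ 1 * ((2 * Real.sqrt x) * Real.log x) := by
            have h4 := trace_bound m v hv.2
            have h5 : Real.sqrt (Ideal.absNorm v.asIdeal) ≤ Real.sqrt x := Real.sqrt_le_sqrt hNx
            have h6 := hw i v
            gcongr
            exact h4.trans (by linarith)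
        _ = 2 * Real.sqrt x * Real.log x := by ring) (by positivity)
    rw [sum_congr rfl e2, ← e1] at h3
    have h4 := hm x hyx hxr i hi τ hτ
    have hsq : (Nat.sqrt x : ℝ) ≤ Real.sqrt x := Real.nat_sqrt_le_real_sqrt
    have hs1 : 1 ≤ Real.sqrt x := Real.one_le_sqrt.2 hx1
    have hss : Real.sqrt x * Real.sqrt x = x := Real.mul_self_sqrt hx0.le
    have h5 : (finrank ℚ (F i) : ℝ) * (Nat.sqrt x + 1) * (2 * Real.sqrt x * Real.log x) ≤ 4 * n * x * (Real.log x + 1) := by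
      calc (finrank ℚ (F i) : ℝ) * (Nat.sqrt x + 1) * (2 * Real.sqrt x * Real.log x) ≤
            n * (Real.sqrt x + Real.sqrt x) * (2 * Real.sqrt x * (Real.log x + 1)) := by
            gcongr
            linarith
        _ = 4 * n * (Real.sqrt x * Real.sqrt x) * (Real.log x + 1) := by ring
        _ = _ := by rw [hss]
    have h6 := hx₁ x (by omega)
    have hpow : (x : ℝ) ^ (1 + δ) = x * ((x : ℝ) ^ (δ / 2) * (x : ℝ) ^ (δ / 2)) := by
      rw [← Real.rpow_add hx0, Real.rpow_add hx0, Real.rpow_one]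
      congr 2
      ring
    have hge1 : (1 : ℝ) ≤ (x : ℝ) ^ (δ / 2) := Real.one_le_rpow hx1 (by positivity)
    calc ‖partialSum m (w i) τ x‖ ≤ ‖∑ p ∈ op x, W x i p * (((Real.log p) * (tp p m : ℝ) : ℝ) : ℂ) * hp τ p‖ +
          ‖partialSum m (w i) τ x - ∑ p ∈ op x, W x i p * (((Real.log p) * (tp p m : ℝ) : ℝ) : ℂ) * hp τ p‖ := norm_le_norm_add_norm_sub' _ _
      _ ≤ 3 * n * x * (Real.log x + 1) * (x : ℝ) ^ (δ / 2) + 4 * n * x * (Real.log x + 1) := add_le_add h4 (h3.trans h5)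
      _ ≤ 3 * n * x * (Real.log x + 1) * (x : ℝ) ^ (δ / 2) + 4 * n * x * (Real.log x + 1) * (x : ℝ) ^ (δ / 2) := by
          have : 0 ≤ 4 * (n : ℝ) * x * (Real.log x + 1) := by positivity
          nlinarith
      _ = x * (((3 * n + 4 * n) * (Real.log x + 1)) * (x : ℝ) ^ (δ / 2)) := by ring
      _ ≤ x * ((x : ℝ) ^ (δ / 2) * (x : ℝ) ^ (δ / 2)) := by gcongr
      _ = _ := hpow.symm

end Pool.Agent.Results.MP_fb225e_nt.FewDigitCurvesAllFields
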