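import Pool.Agent.Results.MP_fb225e_nt.DerivativesDensityAbelian
import Pool.Agent.X284.HG.Fin

/-!
# Growth on horizontal lines of the L-functions of elliptic curves over abelian number fields

Let `E` be an elliptic curve over `ℚ` of conductor `N`, `K` an abelian number field of any degree, of
conductor prime to `N` (given by its group `G` of Dirichlet characters), and `Λ(s) = Λ(E/K, s)` the
completed L-function of `E` over `K`, of degree `2 [K : ℚ]` over `ℚ`.

The Riemann hypothesis for `Λ(E/K, s)` holds if and only if on EVERY horizontal line the modulus of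
`Λ(E/K, s)` increases strictly when one moves away from the critical line: for every real `t` the function
`x ↦ |Λ(1 + x + i t)|` is strictly increasing on `[0, ∞)`.  We prove this equivalence, and without any
hypothesis: for EVERY `c < 1` there is `C` such that for all `r ≥ 0`, `T ≥ 2` the set of the `t` in `[0, T]`
for which this function is NOT strictly increasing on `x ≥ r / log T` has measure at most `C e^(-c r) T`.
So at almost all heights `|Λ(E/K, s)|` increases strictly as soon as the distance from the line exceeds
`r / log T`, `r → ∞` arbitrarily slowly.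

Proof (modules `Pool.Agent.X284.HG`).  `Λ(E/K, s)` is the product of the completed L-functions of the twists
of the newform of `E`.  They are not real, have zeros which are not symmetric about the real axis, and may
vanish at the central point and on the real line; the growth lemma is proved for all entire functions of
genus one symmetric about the critical line, whose square is a limit of polynomials symmetric about the line
with zeros which are zeros of the function or lie on the line.  The bad heights are near zeros at a distance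
more than `r / log T` from the line, the number of which is bounded by the density theorem for every twist
(mollified mean squares of the library `Y671.GL`, `Y693.GL`, density theorem `Y24.GL`).
-/

set_option autoImplicit false

open Complex UpperHalfPlane MatrixGroups CongruenceSubgroup
open scoped ComplexConjugate

namespace Pool.Agent.Results.MP_fb225e_nt.HorizontalGrowthAbelian

open Pool.Agent.Results.MP_fb225e_nt.DerivativesDensityAbelian (coef IsFormOf IsCompleted)

/-- The heights `t` in `[0, T]` at which `x ↦ |Λ(1 + x + i t)|` is not strictly increasing for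
`x ≥ h`. -/
def Bad (Λ : ℂ → ℂ) (h T : ℝ) : Set ℝ :=
  {t : ℝ | 0 ≤ t ∧ t ≤ T ∧ ¬ StrictMonoOn (fun x : ℝ => ‖Λ (1 + x + t * Complex.I)‖) (Set.Ici h)}

/-- **Main theorem.**  Let `E : y² = x³ + a x + b` be an elliptic curve over `ℚ` with newform `f` of level
`N`, and let `K` be an abelian number field of conductor prime to `N`, given by its group `G` of Dirichlet
characters modulo `M`.  Then `Λ = Λ(E/K, s)` exists, is unique and has a functional equation; all its zeros
are on the line `Re s = 1` if and only if for every real `t` the function `x ↦ |Λ(1 + x + i t)|` is strictly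
increasing on `[0, ∞)`; and for every `c < 1` there is `C` such that for all `r ≥ 0` and `T ≥ 2` the measure
of the set of the `t` in `[0, T]` for which this function is not strictly increasing on `[r / log T, ∞)` is
at most `C e^(-c r) T`. -/
theorem result : ∀ (a b : ℤ) (N : ℕ) [NeZero N] (f : CuspForm (Gamma0 N : Subgroup (GL (Fin 2) ℝ)) 2) (w : ℝ),
    4 * a ^ 3 + 27 * b ^ 2 ≠ 0 → IsFormOf a b N f w →
    ∀ (M : ℕ) [NeZero M] (G : Subgroup (DirichletCharacter ℂ M)) [Fintype G], Nat.Coprime M N →
    ∃ Λ : ℂ → ℂ, IsCompleted G f Λ ∧ (∀ Λ' : ℂ → ℂ, IsCompleted G f Λ' → Λ' = Λ) ∧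
      (∃ W : ℂ, ‖W‖ = 1 ∧ ∀ s : ℂ, Λ (2 - s) = W * conj (Λ (conj s))) ∧
      ((∀ s : ℂ, Λ s = 0 → s.re = 1) ↔
        ∀ t : ℝ, StrictMonoOn (fun x : ℝ => ‖Λ (1 + x + t * Complex.I)‖) (Set.Ici 0)) ∧
      ∀ c : ℝ, c < 1 → ∃ C : ℝ, 0 < C ∧ ∀ r T : ℝ, 0 ≤ r → 2 ≤ T →
        MeasureTheory.volume (Bad Λ (r / Real.log T) T) ≤
          ENNReal.ofReal (C * Real.exp (-(c * r)) * T) := by
  obtain ⟨C, -, -, H2⟩ := Pool.Agent.TH839.UH.flow_all
  intro a b N _ f w _ hf M _ G _ hco
  have hf' : Pool.Agent.W169.HF.IsForm N f w :=
    { one := hf.one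
      real := hf.real
      mul := hf.mul
      pow := hf.pow
      sign := hf.sign
      fricke := hf.fricke
      good := hf.good
      bad := fun p hp hpN => by
        have h1 : (1 : ℝ) ≤ Real.sqrt p := by
          rw [Real.one_le_sqrt]
          exact_mod_cast hp.one_le
        have h2 : ‖coef f p‖ ≤ 1 := by
          rcases hf.bad p hp hpN with h | h | h <;> simp [h]
        exact h2.trans h1 }
  obtain ⟨Λ, h1, h2, h3, -⟩ := H2 N f w M G hf' hco
  obtain ⟨X, hX, v, hv, hXe⟩ := Pool.Agent.X284.HG.good_ab G hf' hco h1 h2
  haveI : Nonempty G := ⟨1⟩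
  have hXe' : ∀ z : ℂ, ∏ χ : G, X χ z = v * Λ (((1 : ℝ) : ℂ) + z) := by
    intro z
    rw [Complex.ofReal_one]
    exact hXe z
  obtain ⟨h4, h5⟩ := Pool.Agent.X284.HG.growth_all hX hv hXe'
  simp only [Complex.ofReal_one] at h4
  have e : ∀ h T : ℝ, Bad Λ h T = Pool.Agent.X284.HG.BadA 1 Λ h T := by
    intro h T
    unfold Bad Pool.Agent.X284.HG.BadA
    simp only [Complex.ofReal_one]
  refine ⟨Λ, ⟨h1, h2⟩, fun Λ' h' => Pool.Agent.W355.UN.Pk.uniq h1 h'.1 h2 h'.2, h3, h4, fun c hc => ?_⟩
  obtain ⟨C, hC, h⟩ := h5 c hc
  refine ⟨C, hC, fun r T hr hT => ?_⟩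
  rw [e]
  exact h r T hr hT

end Pool.Agent.Results.MP_fb225e_nt.HorizontalGrowthAbelian
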