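import Pool.Agent.X305.Li.Ab

/-!
# MP_fb225e_nt: the Riemann hypothesis for L(E/K, s), K abelian, and Li coefficients along sparse sets

`E : y² = x³ + a x + b` is an elliptic curve over `ℚ` of conductor `N`, and `K` an abelian number field
whose conductor is prime to `N`, given by its group `G` of Dirichlet characters modulo `M` (theorem of
Kronecker and Weber); `[K : ℚ]` is the order of `G`, and `L(E/K, s)` is the product of the twists
`L(E ⊗ χ, s)` over the primitive characters associated with the `χ` in `G`. So the pair `(E, K)` is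
continuable, and `Λ(E/K, s) = A^(s/2) ((2π)^(-s) Γ(s))^[K : ℚ] L(E/K, s)` is entire.

For `α > 0` the map `z ↦ 1 + α (1 + z) / (1 - z)` sends the unit disc to the half-plane `Re s > 1` and
`0` to `1 + α`. The Li coefficients are `λ_n(α) = ∑ (1 - ((ρ - 1 - α) / (ρ - 1 + α)) ^ n)`, over the
zeros `ρ` of `Λ(E/K, s)`, that is the coefficients of the logarithmic derivative of
`Λ(1 + α (1 + z) / (1 - z))` at `z = 0`. By Li (1997), Bombieri and Lagarias (1999), Lagarias (2007) all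
zeros are on the line `Re s = 1` if and only if `λ_n ≥ 0` for all `n`.

Call `S` a set of Bohr recurrence if for all real `θ_1, ..., θ_k` and `ε > 0` there is a positive `n`
in `S` such that all `n θ_j` are at distance less than `ε` from the integers, for instance the squares,
the differences of the elements of an infinite set, and sets which contain arbitrarily long intervals.
We prove for all `(E, K)` and all such sets `S`:

* all zeros are on the line `Re s = 1` if and only if `λ_n(α) ≥ 0` for all positive `n ∈ S`;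
* all zeros satisfy `|(ρ - 1 - α) / (ρ - 1 + α)| ≥ exp (-κ)` if and only if
  `λ_n(α) ≥ - C(δ) exp ((κ + δ) n)` for all `n ∈ S` and all `δ > 0`;
* a zero `ρ` with `Re ρ > 1` gives `r ≤ |(ρ - 1 - α) / (ρ - 1 + α)| < 1` and infinitely many `n ∈ S`
  with `λ_n(α) ≤ - r ^ (-n) / 16`.

If all zeros are on the line then `λ_n(α) ≥ 2 R` for all odd `n` and all `α > 0`, where `R` is the
order of vanishing at `s = 1` (the analytic rank of `E` over `K`).

The functional equations of the twists and the Euler products are from the modules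
`Pool.Agent.W440.TW`, `Pool.Agent.W355.UN` (helpers 355, 388, 440, 12, 215, 672, 803).
-/

set_option autoImplicit false

open Complex UpperHalfPlane MatrixGroups CongruenceSubgroup
open scoped ComplexConjugate

namespace Pool.Agent.Results.MP_fb225e_nt.LiAlongSparseSets

/-- The coefficient `a_p` of `E : y² = x³ + a x + b` at a prime `p ∤ 2 (4a³ + 27b²)`: `p` minus the
number of pairs `(x, y)` modulo `p` with `y² ≡ x³ + a x + b (mod p)`. -/
noncomputable def ap (a b : ℤ) (p : ℕ) : ℤ :=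
  (p : ℤ) - (((Finset.range p ×ˢ Finset.range p).filter
    (fun xy : ℕ × ℕ => (p : ℤ) ∣ (xy.2 : ℤ) ^ 2 -
      ((xy.1 : ℤ) ^ 3 + a * (xy.1 : ℤ) + b))).card : ℤ)

/-- The `n`-th Fourier coefficient of `f`. -/
noncomputable def coef {N : ℕ} (f : CuspForm (Gamma0 N : Subgroup (GL (Fin 2) ℝ)) 2) (n : ℕ) : ℂ :=
  (qExpansion 1 f).coeff n

/-- `f ∈ S_2(Γ₀(N))` is the newform of the elliptic curve `E : y² = x³ + a x + b` of conductor `N` and
root number `w`: the Fourier coefficients `c(n)` of `f` are real with `c(1) = 1`, they satisfy the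
Hecke relations `c(mn) = c(m) c(n)` for coprime `m`, `n` and `c(p^(j+2)) = c(p) c(p^(j+1)) - p c(p^j)`
(without the last term if `p ∣ N`), `f(-1/(Nτ)) = -w N τ² f(τ)`, `c(p) = a_p(E)` for all primes
`p ∤ 2 (4a³ + 27b²)`, `|c(p)| ≤ 2 √p` for all `p ∤ N` (Hasse) and `c(p) = 0, 1, -1` for `p ∣ N`. -/
structure IsFormOf (a b : ℤ) (N : ℕ) (f : CuspForm (Gamma0 N : Subgroup (GL (Fin 2) ℝ)) 2) (w : ℝ) :
    Prop where
  one : coef f 1 = 1
  real : ∀ n, (coef f n).im = 0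
  mul : ∀ m n : ℕ, Nat.Coprime m n → coef f (m * n) = coef f m * coef f n
  pow : ∀ p j : ℕ, p.Prime → coef f (p ^ (j + 2)) = coef f p * coef f (p ^ (j + 1)) -
      (if p ∣ N then 0 else (p : ℂ) * coef f (p ^ j))
  sign : w = 1 ∨ w = -1
  fricke : ∀ τ τ' : ℍ, (τ' : ℂ) * ((N : ℂ) * (τ : ℂ)) = -1 →
    f τ' = -(w : ℂ) * (N : ℂ) * (τ : ℂ) ^ 2 * f τ
  points : ∀ p : ℕ, p.Prime → ¬ (p : ℤ) ∣ 2 * (4 * a ^ 3 + 27 * b ^ 2) → coef f p = (ap a b p : ℂ)
  good : ∀ p : ℕ, p.Prime → ¬ p ∣ N → ‖coef f p‖ ≤ 2 * Real.sqrt p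
  bad : ∀ p : ℕ, p.Prime → p ∣ N → coef f p = 0 ∨ coef f p = 1 ∨ coef f p = -1

/-- The completed L-function of the twist of `E` by `χ` modulo `q`, for `Re s > 3/2`:
`(√N q / 2π)^s Γ(s) ∑ c(n) χ(n) n^(-s)`. -/
noncomputable def twist {N : ℕ} (f : CuspForm (Gamma0 N : Subgroup (GL (Fin 2) ℝ)) 2) {q : ℕ}
    (χ : DirichletCharacter ℂ q) (s : ℂ) : ℂ :=
  ((Real.sqrt N * q / (2 * Real.pi) : ℝ) : ℂ) ^ s * Complex.Gamma s *
    ∑' n : ℕ, coef f (n + 1) * χ ((n + 1 : ℕ) : ZMod q) * ((n + 1 : ℕ) : ℂ) ^ (-s)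

/-- `Λ = Λ(E/K, s)`, where `K` is the abelian number field with the group `G` of Dirichlet
characters: `Λ` is entire and, for large real part, it is the product over `χ` in `G` of the completed
L-functions of the twists of `E` by the primitive character associated with `χ`. -/
def IsCompleted {M : ℕ} (G : Subgroup (DirichletCharacter ℂ M)) [Fintype G] {N : ℕ}
    (f : CuspForm (Gamma0 N : Subgroup (GL (Fin 2) ℝ)) 2) (Λ : ℂ → ℂ) : Prop :=
  Differentiable ℂ Λ ∧ ∃ σ : ℝ, ∀ s : ℂ, σ ≤ s.re →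
    Λ s = ∏ χ : G, twist f (χ : DirichletCharacter ℂ M).primitiveCharacter s

/-- Li's coefficient `λ_n(α)` of `Λ`, for `n ≥ 1`: the real part of the coefficient of `z ^ (n - 1)` in
the Taylor series at `0` of the logarithmic derivative of `Λ (1 + α (1 + z) / (1 - z))`. -/
noncomputable def li (Λ : ℂ → ℂ) (α : ℝ) (n : ℕ) : ℝ :=
  (iteratedDeriv (n - 1) (logDeriv fun z => Λ (1 + α * ((1 + z) / (1 - z)))) 0 /
    ((n - 1).factorial : ℂ)).re

/-- For all real `θ_1, ..., θ_k` and `ε > 0` there is a positive `n ∈ S` such that all `n θ_j` are at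
distance less than `ε` from the integers. -/
def BohrRecurrent (S : Set ℕ) : Prop := ∀ (k : ℕ) (θ : Fin k → ℝ) (ε : ℝ), 0 < ε →
  ∃ n ∈ S, 0 < n ∧ ∀ j, |n * θ j - round (n * θ j)| < ε

/-- **Main theorem.**  `Fintype.card G = [K : ℚ]`. -/
theorem result (a b : ℤ) (N : ℕ) [NeZero N] (f : CuspForm (Gamma0 N : Subgroup (GL (Fin 2) ℝ)) 2)
    (w : ℝ) (hf : IsFormOf a b N f w) (M : ℕ) [NeZero M] (G : Subgroup (DirichletCharacter ℂ M))
    [Fintype G] (hMN : Nat.Coprime M N) :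
    ∃ Λ : ℂ → ℂ, IsCompleted G f Λ ∧ (∀ Λ' : ℂ → ℂ, IsCompleted G f Λ' → Λ' = Λ) ∧
      (∃ W : ℂ, ‖W‖ = 1 ∧ ∀ s : ℂ, Λ (2 - s) = W * conj (Λ (conj s))) ∧
      (∀ s : ℂ, 3 / 2 < s.re → Λ s ≠ 0) ∧
      (∀ α : ℝ, 0 < α → Λ (1 + α) ≠ 0 → ∀ S : Set ℕ, BohrRecurrent S →
        ((∀ s : ℂ, Λ s = 0 → s.re = 1) ↔ ∀ n ∈ S, 0 < n → 0 ≤ li Λ α n) ∧
        (∀ κ : ℝ, 0 ≤ κ →
          ((∀ s : ℂ, Λ s = 0 → Real.exp (-κ) ≤ ‖(s - 1 - α) / (s - 1 + α)‖) ↔
            ∀ δ : ℝ, 0 < δ → ∃ C : ℝ, ∀ n ∈ S, -(C * Real.exp ((κ + δ) * n)) ≤ li Λ α n)) ∧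
        (∀ s : ℂ, Λ s = 0 → 1 < s.re →
          ∃ r : ℝ, 0 < r ∧ r ≤ ‖(s - 1 - α) / (s - 1 + α)‖ ∧ ‖(s - 1 - α) / (s - 1 + α)‖ < 1 ∧
            ∀ m : ℕ, ∃ n ∈ S, m ≤ n ∧ 0 < n ∧ li Λ α n ≤ -(1 / 16 * (r⁻¹) ^ n))) ∧
      ((∀ s : ℂ, Λ s = 0 → s.re = 1) → ∃ R : ℕ, analyticOrderAt Λ 1 = (R : ℕ∞) ∧
        ∀ α : ℝ, 0 < α → ∀ n : ℕ, Odd n → 2 * (R : ℝ) ≤ li Λ α n) := by
  have hf' : Pool.Agent.W169.HF.IsForm N f w :=
    { one := hf.one
      real := hf.real
      mul := hf.mul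
      pow := hf.pow
      sign := hf.sign
      fricke := hf.fricke
      good := hf.good
      bad := fun p hp hpN => by
        have h1 : (1 : ℝ) ≤ Real.sqrt p := by
          rw [Real.one_le_sqrt]
          exact_mod_cast hp.one_le
        have h2 : ‖coef f p‖ ≤ 1 := by
          rcases hf.bad p hp hpN with h | h | h <;> simp [h]
        exact h2.trans h1 }
  obtain ⟨Λ, h2, h3, h4, hL⟩ := X305.Li.ab_completed G hf' hMN
  have hli : ∀ α n, X305.Li.lic Λ 1 α n = li Λ α n := by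
    intro α n
    unfold X305.Li.lic li
    rw [Complex.ofReal_one]
  refine ⟨Λ, ⟨hL.diff, h2⟩, fun Λ' h' => Pool.Agent.W355.UN.Pk.uniq hL.diff h'.1 h2 h'.2, h3, h4, ?_, ?_⟩
  · intro α hα hΛα S hS
    have hΛα' : Λ (((1 : ℝ) : ℂ) + α) ≠ 0 := by rwa [Complex.ofReal_one]
    refine ⟨?_, ?_, ?_⟩
    · have h := hL.criterion hα hΛα' hS
      simpa only [hli] using h
    · intro κ hκ
      have h := hL.exponents hα hΛα' hS hκ
      simpa only [hli, Complex.ofReal_one] using h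
    · intro s hs hre
      have hre' : 0 < (s - 1).re := by
        rw [Complex.sub_re, Complex.one_re]
        linarith
      obtain ⟨r, hr0, hr1, hr⟩ := hL.neg hα hΛα' hre' (by
        rw [Complex.ofReal_one, add_sub_cancel]
        exact hs) hS
      refine ⟨r, hr0, hr1, X305.Li.norm_cay_lt hα hre', fun m => ?_⟩
      obtain ⟨n, h1, h2, h3, h4⟩ := hr m
      exact ⟨n, h1, h2, h3, by rw [← hli]; exact h4⟩
  · intro hRH
    obtain ⟨R, hR, h1⟩ := hL.nonneg hRH
    rw [Complex.ofReal_one] at hR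
    refine ⟨R, hR, fun α hα n hn => ?_⟩
    have h2 := h1 α hα n
    rw [hli] at h2
    obtain ⟨k, hk⟩ := hn
    have h3 : (-1 : ℝ) ^ (n - 1) = 1 := by
      rw [hk, Nat.add_sub_cancel, pow_mul]
      norm_num
    rw [h3] at h2
    linarith

end Pool.Agent.Results.MP_fb225e_nt.LiAlongSparseSets
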