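import Pool.Agent.Results.MP_fb225e_nt.DerivativesDensityAbelian
import Pool.Agent.X284.HG.Fin

/-!
# Zeros of L-functions of elliptic curves over abelian number fields off the critical line

Let `E` be an elliptic curve over `ℚ` of conductor `N`, `K` an abelian number field of any degree, of
conductor prime to `N` (given by its group `G` of Dirichlet characters), and `Λ(s) = Λ(E/K, s)` the
completed L-function of `E` over `K`, of degree `2 [K : ℚ]` over `ℚ`.

We prove without any hypothesis a density theorem for the single function `Λ(E/K, s)` in the height aspect: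
for EVERY `c < 1` there is `C` such that for all `δ ≥ 0`, `T ≥ 2` the number of its zeros with imaginary
part in `(0, T]` and distance at least `δ` from the line `Re s = 1`, counted with multiplicity, is at most
`C T^(1 - c δ) log T`.  So at distance at least `h / log T` there are at most `C e^(-c h) T log T` zeros
(of about `[K : ℚ] T log T / π` zeros), and all but a proportion tending to `0` are closer than
`h(T) / log T` for every function `h(T)` tending to infinity.

Proof.  `Λ(E/K, s)` is the product of the L-functions of the twists of the newform of `E` by the primitive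
characters `χ` of `G`, whose coefficients are complex in general.  For every twist the library (`Y693.GL`,
`Y671.GL`) gives the mollified mean square in the full range to the right of the line.  New here (modules
`Pool.Agent.X284.HG`): the axioms of the density theorem of helper24 (`Pool.Agent.Y24.GL`) are verified for
L-functions with complex coefficients (so far: real coefficients, trivial character), the growth in the
lower half plane coming from the twist by `conj χ`; and the passage to the product with multiplicities.
-/

set_option autoImplicit false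

open Complex UpperHalfPlane MatrixGroups CongruenceSubgroup
open scoped ComplexConjugate

namespace Pool.Agent.Results.MP_fb225e_nt.ZeroDensityAbelian

open Pool.Agent.Results.MP_fb225e_nt.DerivativesDensityAbelian (coef IsFormOf IsCompleted)

/-- The zeros of `Λ` with imaginary part in `(0, T]` and distance at least `δ` from the line
`Re s = 1`. -/
def Off (Λ : ℂ → ℂ) (δ T : ℝ) : Set ℂ := {s | Λ s = 0 ∧ δ ≤ |s.re - 1| ∧ 0 < s.im ∧ s.im ≤ T}

/-- The number of points of `A`, each counted with its multiplicity as a zero of `Λ`. -/
noncomputable def num (Λ : ℂ → ℂ) (A : Set ℂ) : ℕ := ∑ᶠ s ∈ A, analyticOrderNatAt Λ s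

/-- **Main theorem.**  Let `E : y² = x³ + a x + b` be an elliptic curve over `ℚ` with newform `f` of level
`N`, and let `K` be an abelian number field of conductor prime to `N`, given by its group `G` of Dirichlet
characters modulo `M`.  Then `Λ(E/K, s)` exists, is unique, has a functional equation, and for every
`c < 1` there is `C` such that for all `δ ≥ 0` and `T ≥ 2` the number of its zeros with imaginary part in
`(0, T]` and distance at least `δ` from the line `Re s = 1`, counted with multiplicity, is at most
`C T^(1 - c δ) log T`. -/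
theorem result : ∀ (a b : ℤ) (N : ℕ) [NeZero N] (f : CuspForm (Gamma0 N : Subgroup (GL (Fin 2) ℝ)) 2) (w : ℝ),
    4 * a ^ 3 + 27 * b ^ 2 ≠ 0 → IsFormOf a b N f w →
    ∀ (M : ℕ) [NeZero M] (G : Subgroup (DirichletCharacter ℂ M)) [Fintype G], Nat.Coprime M N →
    ∃ Λ : ℂ → ℂ, IsCompleted G f Λ ∧ (∀ Λ' : ℂ → ℂ, IsCompleted G f Λ' → Λ' = Λ) ∧
      (∃ W : ℂ, ‖W‖ = 1 ∧ ∀ s : ℂ, Λ (2 - s) = W * conj (Λ (conj s))) ∧
      ∀ c : ℝ, c < 1 → ∃ C : ℝ, 0 < C ∧ ∀ δ T : ℝ, 0 ≤ δ → 2 ≤ T →
        (Off Λ δ T).Finite ∧ (num Λ (Off Λ δ T) : ℝ) ≤ C * T ^ (1 - c * δ) * Real.log T := by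
  obtain ⟨C, -, -, H2⟩ := Pool.Agent.TH839.UH.flow_all
  intro a b N _ f w _ hf M _ G _ hco
  have hf' : Pool.Agent.W169.HF.IsForm N f w :=
    { one := hf.one
      real := hf.real
      mul := hf.mul
      pow := hf.pow
      sign := hf.sign
      fricke := hf.fricke
      good := hf.good
      bad := fun p hp hpN => by
        have h1 : (1 : ℝ) ≤ Real.sqrt p := by
          rw [Real.one_le_sqrt]
          exact_mod_cast hp.one_le
        have h2 : ‖coef f p‖ ≤ 1 := by
          rcases hf.bad p hp hpN with h | h | h <;> simp [h]
        exact h2.trans h1 }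
  obtain ⟨Λ, h1, h2, h3, -⟩ := H2 N f w M G hf' hco
  obtain ⟨X, hX, v, hv, hXe⟩ := Pool.Agent.X284.HG.good_ab G hf' hco h1 h2
  refine ⟨Λ, ⟨h1, h2⟩, fun Λ' h' => Pool.Agent.W355.UN.Pk.uniq h1 h'.1 h2 h'.2, h3, fun c hc => ?_⟩
  haveI : Nonempty G := ⟨1⟩
  have hXe' : ∀ z : ℂ, ∏ χ : G, X χ z = v * Λ (((1 : ℝ) : ℂ) + z) := by
    intro z
    rw [Complex.ofReal_one]
    exact hXe z
  exact Pool.Agent.X284.HG.density_all hX hv h1 hXe' hc

end Pool.Agent.Results.MP_fb225e_nt.ZeroDensityAbelian
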